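import Pool.Agent.Y34.HB.Stm2

/-! HP-WIDE (job 3926, helper657 for helper34) -/

set_option autoImplicit false

universe u v

open Metric Set Filter Topology
open Pool.Agent.TH60.FP
open Pool.Agent.Y34.HB

namespace Pool.Agent.Y657.HB.Wide

theorem t (h : X_CLOSE.{u, v}) : S_WIDE.{u, v} := by
  intro X _ G _ _ hG τ hτ hS
  have := hG.proper
  have := hG.isom
  have := hG.disc
  obtain ⟨K, hK, hKc⟩ := hG.cc
  -- the normalised strips
  have key : ∀ n : ℕ, ∃ (γ : G) (F : ℝ → ℝ → X), F 0 0 ∈ K ∧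
      (∀ x y x' y' : ℝ, |y| ≤ (n : ℝ) → |y'| ≤ (n : ℝ) →
        dist (F x y) (F x' y') ^ 2 = (x - x') ^ 2 + (y - y') ^ 2) ∧
      (∀ (x : ℝ) (y : ℤ), |(y : ℝ)| ≤ (n : ℝ) → γ • F x y = F (x + τ) y) := by
    intro n
    obtain ⟨g, S, hs, hg⟩ := hS (2 * n)
    push_cast at hs
    obtain ⟨b, hb⟩ := hKc (S 0 n)
    refine ⟨b * g * b⁻¹, fun x y => b • S x (n + y), by simpa using hb, ?_, ?_⟩
    · intro x y x' y' hy hy'
      rw [abs_le] at hy hy'
      rw [dist_smul, hs _ _ _ _ (by linarith) (by linarith) (by linarith) (by linarith)]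
      ring
    · intro x y hy
      rw [abs_le] at hy
      have hy1 : -(n : ℤ) ≤ y := by exact_mod_cast hy.1
      have hy2 : y ≤ (n : ℤ) := by exact_mod_cast hy.2
      obtain ⟨s, hs1⟩ := Int.eq_ofNat_of_zero_le (show 0 ≤ (n : ℤ) + y by omega)
      have hs2 : (s : ℝ) = n + y := by exact_mod_cast hs1.symm
      have h1 := hg x s (Nat.zero_le _) (by omega)
      rw [hs2] at h1
      change (b * g * b⁻¹) • (b • S x (n + y)) = b • S (x + τ) (n + y)
      rw [mul_smul, mul_smul, inv_smul_smul, h1]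
  choose γ F hFK hFd hFg using key
  -- the elements `γ n` are in a finite set
  have hfin : {g : G | ((g • ·) '' K ∩ cthickening τ K).Nonempty}.Finite :=
    finite_disjoint_inter_image hK hK.cthickening
  have hmem : ∀ n, γ n ∈ {g : G | ((g • ·) '' K ∩ cthickening τ K).Nonempty} := by
    intro n
    refine ⟨γ n • F n 0 0, ⟨F n 0 0, hFK n, rfl⟩, ?_⟩
    have h0 := hFg n 0 0 (by simp)
    rw [Int.cast_zero] at h0
    rw [h0]
    refine mem_cthickening_of_dist_le _ (F n 0 0) _ _ (hFK n) ?_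
    have h1 := hFd n (0 + τ) 0 0 0 (by simp) (by simp)
    have h2 : dist (F n (0 + τ) 0) (F n 0 0) ^ 2 = τ ^ 2 := by rw [h1]; ring
    exact ((sq_eq_sq₀ dist_nonneg hτ.le).1 h2).le
  obtain ⟨g, -, hgev⟩ := (Ultrafilter.eventually_exists_mem_iff (f := hyperfilter ℕ)
    (P := fun g n => γ n = g) hfin).1 (Eventually.of_forall fun n => ⟨γ n, hmem n, rfl⟩)
  have hev : ∀ y : ℝ, ∀ᶠ n : ℕ in (hyperfilter ℕ : Filter ℕ), |y| ≤ (n : ℝ) := by
    intro y
    have h2 : ∀ᶠ n : ℕ in atTop, |y| ≤ (n : ℝ) := by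
      filter_upwards [eventually_ge_atTop ⌈|y|⌉₊] with n hn
      exact (Nat.le_ceil _).trans (by exact_mod_cast hn)
    exact Nat.hyperfilter_le_atTop h2
  have hlim : ∀ x y : ℝ, ∃ p : X,
      Tendsto (fun n => F n x y) (hyperfilter ℕ : Filter ℕ) (𝓝 p) := by
    intro x y
    have hc : IsCompact (cthickening (Real.sqrt (x ^ 2 + y ^ 2)) K) := hK.cthickening
    have hmm : cthickening (Real.sqrt (x ^ 2 + y ^ 2)) K ∈
        ((hyperfilter ℕ).map fun n => F n x y) := by
      rw [Ultrafilter.mem_map]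
      filter_upwards [hev y] with n hn
      have h2 := hFd n x y 0 0 hn (by simp)
      refine mem_cthickening_of_dist_le _ (F n 0 0) _ _ (hFK n) ?_
      refine Real.le_sqrt_of_sq_le ?_
      rw [h2]
      simp
    obtain ⟨p, -, hp⟩ := hc.ultrafilter_le_nhds' _ hmm
    exact ⟨p, hp⟩
  choose f hf using hlim
  have hfl : Fl f := by
    intro x y x' y'
    have h2 : Tendsto (fun n => dist (F n x y) (F n x' y') ^ 2) (hyperfilter ℕ : Filter ℕ)
        (𝓝 (dist (f x y) (f x' y') ^ 2)) := ((hf x y).dist (hf x' y')).pow 2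
    refine tendsto_nhds_unique h2 (Tendsto.congr' ?_ tendsto_const_nhds)
    filter_upwards [hev y, hev y'] with n hx hy
    exact (hFd n x y x' y' hx hy).symm
  have hfg : ∀ (x : ℝ) (y : ℤ), g • f x y = f (x + τ) y := by
    intro x y
    have h1 : Tendsto (fun n => g • F n x y) (hyperfilter ℕ : Filter ℕ) (𝓝 (g • f x y)) :=
      (hf x y).const_smul g
    refine tendsto_nhds_unique h1 (Tendsto.congr' ?_ (hf (x + τ) y))
    filter_upwards [hev y, hgev] with n hy hn
    rw [← hFg n x y hy, hn]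
  have hnat : ∀ (i : ℕ) (x : ℝ) (y : ℤ), g ^ i • f x y = f (x + i * τ) y := by
    intro i
    induction i with
    | zero => intro x y; simp
    | succ i ih =>
      intro x y
      rw [pow_succ, mul_smul, hfg, ih]
      congr 1
      push_cast
      ring
  have hint : ∀ (i : ℤ) (x : ℝ) (y : ℤ), g ^ i • f x y = f (x + i * τ) y := by
    intro i x y
    obtain ⟨m, rfl | rfl⟩ := i.eq_nat_or_neg
    · rw [zpow_natCast, hnat]
      simp
    · rw [zpow_neg, zpow_natCast, inv_smul_eq_iff, hnat]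
      congr 1
      push_cast
      ring
  have hone : ∀ x y : ℝ, dist (f x y) (f x (⌊y⌋ : ℤ)) ≤ 1 := by
    intro x y
    have h1 := hfl x y x (⌊y⌋ : ℤ)
    have h2 := Int.floor_le y
    have h3 := Int.lt_floor_add_one y
    refine le_of_sq_le_sq ?_ zero_le_one
    rw [h1]
    nlinarith
  refine h X G f g τ 2 ⟨hG.proper, hG.isom, hG.disc, hG.cc, hG.cn, hfl, hτ, fun i x y => ?_⟩
  have h1 := dist_triangle4 (g ^ i • f x y) (g ^ i • f x (⌊y⌋ : ℤ)) (f (x + i * τ) (⌊y⌋ : ℤ))
    (f (x + i * τ) y)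
  rw [hint i x ⌊y⌋, dist_self, ← hint i x ⌊y⌋, dist_smul] at h1
  have h2 := hone x y
  have h3 := hone (x + i * τ) y
  rw [dist_comm, ← hint i x ⌊y⌋] at h3
  linarith

end Pool.Agent.Y657.HB.Wide
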